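import Pool.Agent.H.MP_c4c6a0_pr.B

set_option linter.unusedSectionVars false
set_option linter.unusedVariables false
set_option linter.dupNamespace false

namespace Pool.Agent.H.MP_01c081_pr

open Finset MeasureTheory ProbabilityTheory Measure Filter Topology
open scoped ENNReal

/-- Independent uniform choices among four directions. -/
noncomputable def Xi : Measure (ℕ → Fin 4) := Measure.infinitePi fun _ => uniformOn Set.univ

instance : IsProbabilityMeasure Xi := by unfold Xi; infer_instance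

/-- The walk from `x` that moves from `v` to `nb v d` when the direction chosen is `d`. -/
def walk {V : Type} (nb : V → Fin 4 → V) (x : V) (ξ : ℕ → Fin 4) : ℕ → V
  | 0 => x
  | n + 1 => nb (walk nb x ξ n) (ξ n)

lemma first {S : Fin 4 → Set (ℕ → Fin 4)} (hS : ∀ d, MeasurableSet (S d)) :
    Xi.real {ξ | (fun n => ξ (n + 1)) ∈ S (ξ 0)} = ∑ d, Xi.real (S d) / 4 := by
  have B := Pool.Agent.H.MP_c4c6a0_pr.blocks (uniformOn (Set.univ : Set (Fin 4)))
    (fun n : ℕ => decide (n = 0)) (fun j w => if j then 0 else w + 1) (by rintro (_ | _) w <;> simp)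
  have m0 : ∀ d : Fin 4, MeasurableSet {ξ : ℕ → Fin 4 | ξ 0 = d} := fun d =>
    (measurableSet_singleton d).preimage (measurable_pi_apply 0)
  rw [show {ξ : ℕ → Fin 4 | (fun n => ξ (n + 1)) ∈ S (ξ 0)} =
      ⋃ d, {ξ | ξ 0 = d} ∩ (fun ξ n => ξ (n + 1)) ⁻¹' S d by ext; simp,
    measureReal_iUnion_fintype (fun d d' h => Set.disjoint_left.2 fun ξ h1 h2 =>
      h (h1.1.symm.trans h2.1)) fun d => (m0 d).inter ((hS d).preimage (by fun_prop))]
  refine sum_congr rfl fun d _ => ?_
  have h1 := (B.indepFun (show true ≠ false by simp)).measure_inter_preimage_eq_mul _ _ (m0 d) (hS d)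
  have h2 := congrArg (fun μ => μ {d})
    (infinitePi_map_eval (fun _ : ℕ => uniformOn (Set.univ : Set (Fin 4))) 0)
  rw [map_apply (by fun_prop) (measurableSet_singleton d), uniformOn_univ] at h2
  have h3 := congrArg (fun μ => μ (S d)) (map_infinitePi_infinitePi_of_inj
    (P := fun _ : ℕ => uniformOn (Set.univ : Set (Fin 4))) Nat.succ_injective)
  rw [map_apply (by fun_prop) (hS d)] at h3
  refine (congrArg ENNReal.toReal (h1.trans (congrArg₂ _ h2 h3))).trans ?_
  simp [Measure.real, Xi, div_eq_inv_mul]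

variable {V : Type} [Countable V] {nb : V → Fin 4 → V}

lemma walk_s (x : V) (ξ : ℕ → Fin 4) (n : ℕ) :
    walk nb x ξ (n + 1) = walk nb (nb x (ξ 0)) (fun n => ξ (n + 1)) n := by
  induction n with
  | zero => rfl
  | succ n ih => rw [walk, ih]; rfl

lemma walk_m (x : V) (n : ℕ) : ∀ y, MeasurableSet {ξ | walk nb x ξ n = y} := by
  induction n with
  | zero => exact fun y => MeasurableSet.const (x = y)
  | succ n ih =>
    intro y
    rw [show {ξ | walk nb x ξ (n + 1) = y} = ⋃ p : V × Fin 4, {_ξ | nb p.1 p.2 = y} ∩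
      ({ξ | walk nb x ξ n = p.1} ∩ (fun ξ => ξ n) ⁻¹' {p.2}) by ext; simp [walk]]
    exact .iUnion fun p => (MeasurableSet.const _).inter ((ih _).inter
      ((measurableSet_singleton _).preimage (measurable_pi_apply n)))

variable {iv : Fin 4 → Fin 4} (hv : ∀ d, iv (iv d) = d) (hi : ∀ v d, nb (nb v d) (iv d) = v)
include hv hi

lemma fin1 {g : V → ℝ} (hg : g.support.Finite) (h : V × Fin 4 → ℝ) :
    (Function.support fun p : V × Fin 4 => g p.1 * h p).Finite ∧
      (Function.support fun p : V × Fin 4 => g (nb p.1 p.2) * h p).Finite :=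
  ⟨(hg.prod Set.finite_univ).subset fun p hp => ⟨left_ne_zero_of_mul hp, trivial⟩,
    ((hg.prod Set.finite_univ).image fun p => (nb p.1 p.2, iv p.2)).subset fun p hp =>
      ⟨(nb p.1 p.2, iv p.2), ⟨left_ne_zero_of_mul hp, trivial⟩, by simp [hi, hv]⟩⟩

lemma sym {g : V → ℝ} (hg : g.support.Finite) (h : V → ℝ) :
    ∑' p : V × Fin 4, (g p.1 - g (nb p.1 p.2)) * (h p.1 - h (nb p.1 p.2)) =
      2 * ∑' v, g v * ∑ d, (h v - h (nb v d)) := by
  have s := fin1 hv hi hg fun p => h p.1 - h (nb p.1 p.2)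
  have ti : Function.Involutive fun p : V × Fin 4 => (nb p.1 p.2, iv p.2) := fun p => by simp [hi, hv]
  simp_rw [sub_mul]
  rw [(summable_of_hasFiniteSupport s.1).tsum_sub (summable_of_hasFiniteSupport s.2),
    ← ti.toPerm.tsum_eq fun p => g (nb p.1 p.2) * (h p.1 - h (nb p.1 p.2))]
  simp only [Function.Involutive.coe_toPerm, hi]
  simp_rw [← neg_sub (h _) (h (nb _ _)), mul_neg, tsum_neg]
  rw [(summable_of_hasFiniteSupport s.1).tsum_prod]
  simp only [tsum_fintype, mul_sum]
  ring

lemma en_s {f : V → ℝ} (hf : f.support.Finite) :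
    Summable fun p : V × Fin 4 => (f p.1 - f (nb p.1 p.2)) ^ 2 := by
  have s := fin1 hv hi hf fun p => f p.1 - f (nb p.1 p.2)
  simpa only [sq, sub_mul] using (summable_of_hasFiniteSupport s.1).sub (summable_of_hasFiniteSupport s.2)

theorem recur (o : V) (h : ∀ ε > 0, ∃ f : V → ℝ, f.support.Finite ∧ f o = 1 ∧
    ∑' p : V × Fin 4, (f p.1 - f (nb p.1 p.2)) ^ 2 ≤ ε) : ∀ᵐ ξ ∂Xi, ∃ n, walk nb o ξ (n + 1) = o := by
  classical
  have mS : ∀ v, MeasurableSet {ξ | ∀ m, walk nb v ξ m ≠ o} := fun v => by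
    simp only [Set.ofPred_forall]; exact .iInter fun m => (walk_m v m o).compl
  obtain ⟨k, hk⟩ : ∃ k : V → ℝ, k = fun v => Xi.real {ξ | ∀ m, walk nb v ξ m ≠ o} := ⟨_, rfl⟩
  have k0 : ∀ v, 0 ≤ k v := fun v => hk ▸ measureReal_nonneg
  have k1 : ∀ v, k v ≤ 1 := fun v => hk ▸ measureReal_le_one
  have e : ∀ v, Xi.real {ξ | ∀ m, walk nb v ξ (m + 1) ≠ o} = ∑ d, k (nb v d) / 4 := fun v => by
    rw [hk, ← first fun d => mS (nb v d)]
    simp only [walk_s]; rfl
  have ko : k o = 0 := by
    rw [hk]; simp only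
    rw [show {ξ | ∀ m, walk nb o ξ m ≠ o} = ∅ from Set.eq_empty_of_forall_notMem fun ξ h => h 0 rfl]
    simp
  have ha : ∀ v, k v * ∑ d, (k v - k (nb v d)) = 0 := fun v => by
    by_cases hv : v = o
    · simp [hv, ko]
    have : k v = ∑ d, k (nb v d) / 4 := by
      rw [← e, hk]; simp only
      congr 1; ext ξ
      exact ⟨fun h m => h _, fun h m => by rcases m with _ | m; exacts [hv, h m]⟩
    rw [sum_sub_distrib, ← sum_div] at *
    simp only [sum_const, card_univ, Fintype.card_fin, nsmul_eq_mul]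
    rw [mul_eq_zero]; right; push_cast; linarith
  have z : ∀ d, k (nb o d) ≤ 0 := fun d => le_of_forall_pos_le_add fun η η0 => by
    obtain ⟨f, f1, f2, f3⟩ := h ((η / 2) ^ 2) (by positivity)
    have s1 := sym hv hi (g := fun v => f v ^ 2 * k v) (f1.subset fun v h h' => h (by simp [h'])) k
    simp only [mul_assoc, ha, mul_zero, tsum_zero] at s1
    have s2 := en_s hv hi (f := fun v => f v * k v) (f1.subset fun v h h' => h (by simp [h']))
    have s3 := en_s hv hi f1
    have le : ∀ p : V × Fin 4, k p.1 * k (nb p.1 p.2) * (f p.1 - f (nb p.1 p.2)) ^ 2 ≤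
        (f p.1 - f (nb p.1 p.2)) ^ 2 := fun p =>
      mul_le_of_le_one_left (sq_nonneg _) (mul_le_one₀ (k1 _) (k0 _) (k1 _))
    have s4 := s3.of_nonneg_of_le (fun p => mul_nonneg (mul_nonneg (k0 _) (k0 _)) (sq_nonneg _)) le
    rw [tsum_congr (g := fun p : V × Fin 4 => (f p.1 * k p.1 - f (nb p.1 p.2) * k (nb p.1 p.2)) ^ 2 -
      k p.1 * k (nb p.1 p.2) * (f p.1 - f (nb p.1 p.2)) ^ 2) fun p => by ring, s2.tsum_sub s4,
      sub_eq_zero] at s1
    have a1 := (s2.le_tsum (o, d) fun _ _ => sq_nonneg _).trans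
      (s1.le.trans ((s4.tsum_le_tsum le s3).trans f3))
    have a2 := (s3.le_tsum (o, d) fun _ _ => sq_nonneg _).trans f3
    simp only [ko, f2] at a1 a2
    have b1 := (abs_le_of_sq_le_sq' a1 (by positivity)).1
    have b2 := mul_le_mul_of_nonneg_right (abs_le_of_sq_le_sq' a2 (by positivity)).2 (k0 (nb o d))
    have := mul_le_mul_of_nonneg_left (k1 (nb o d)) η0.le
    linarith
  have : Xi.real {ξ | ∀ m, walk nb o ξ (m + 1) ≠ o} = 0 := by
    rw [e]; exact sum_eq_zero fun d _ => by rw [(z d).antisymm (k0 _), zero_div]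
  rw [ae_iff]
  simpa only [not_exists] using (measureReal_eq_zero_iff (measure_ne_top _ _)).1 this

theorem trans (o : V) {C : ℝ} (h : ∀ f : V → ℝ, f.support.Finite →
    f o ^ 2 ≤ C * ∑' p : V × Fin 4, (f p.1 - f (nb p.1 p.2)) ^ 2) (C0 : 0 ≤ C) :
    ∀ᵐ ξ ∂Xi, {n | walk nb o ξ n = o}.Finite := by
  classical
  obtain ⟨q, hq⟩ : ∃ q : ℕ → V → ℝ, q = fun n v => Xi.real {ξ | walk nb v ξ n = o} := ⟨_, rfl⟩
  have q0 : ∀ n v, 0 ≤ q n v := fun n v => hq ▸ measureReal_nonneg
  have qz : ∀ v, q 0 v = if v = o then 1 else 0 := fun v => by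
    rw [hq]; split_ifs with h <;> simp [walk, h]
  have qs : ∀ n v, q (n + 1) v = ∑ d, q n (nb v d) / 4 := fun n v => by
    rw [hq]; simp only
    rw [← first fun d => walk_m (nb v d) n o]
    simp only [walk_s]; rfl
  have qf : ∀ n, (q n).support.Finite := fun n => by
    induction n with
    | zero => exact (Set.finite_singleton o).subset fun v h => by by_contra k; simp_all
    | succ n ih =>
      refine ((fin1 hv hi ih fun _ => 1).2.image Prod.fst).subset fun v h => ?_
      obtain ⟨d, -, hd⟩ := exists_ne_zero_of_sum_ne_zero ((qs n v).symm.trans_ne h)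
      exact ⟨(v, d), by simpa using hd, rfl⟩
  have G : ∀ N, ∑ n ∈ range N, q n o ≤ 8 * C := fun N => by
    have gf : (Function.support fun v => ∑ n ∈ range N, q n v).Finite :=
      ((range N).finite_toSet.biUnion fun n _ => qf n).subset (by
        simpa using support_sum (range N) q)
    have h1 := h _ gf
    have h2 := sym hv hi gf fun v => ∑ n ∈ range N, q n v
    have h3 : ∀ v, ∑ d, (∑ n ∈ range N, q n v - ∑ n ∈ range N, q n (nb v d)) = 4 * (q 0 v - q N v) :=
      fun v => by
        rw [← sum_range_sub' (fun n => q n v), mul_sum]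
        simp only [← sum_sub_distrib]
        rw [Finset.sum_comm]
        refine sum_congr rfl fun n _ => ?_
        rw [qs, ← sum_div, sum_sub_distrib]; simp; ring
    simp only [h3, ← sq] at h2
    have g0 : ∀ v, 0 ≤ ∑ n ∈ range N, q n v := fun v => sum_nonneg fun n _ => q0 n v
    have h4 : ∑' v, (∑ n ∈ range N, q n v) * (4 * (q 0 v - q N v)) ≤ 4 * ∑ n ∈ range N, q n o := by
      refine le_of_le_of_eq (Summable.tsum_le_tsum (g := fun v => if v = o then
        4 * ∑ n ∈ range N, q n o else 0) (fun v => ?_) (summable_of_hasFiniteSupport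
          (gf.subset fun v h => left_ne_zero_of_mul h)) (hasSum_ite_eq _ _).summable) (tsum_ite_eq _ _)
      have := mul_nonneg (g0 v) (q0 N v)
      rw [qz]; split_ifs with h
      · subst h; linarith
      · linarith
    rw [h2] at h1
    have h5 := mul_le_mul_of_nonneg_left h4 C0
    by_contra hn
    have := g0 o
    nlinarith
  refine ae_finite_setOfPred_mem (s := fun n => {ξ | walk nb o ξ n = o}) ?_
  have s := summable_of_sum_range_le (fun n => q0 n o) G
  have := ENNReal.ofReal_tsum_of_nonneg (fun n => q0 n o) s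
  simp only [hq, ofReal_measureReal (measure_ne_top _ _)] at this
  rw [← this]; exact ENNReal.ofReal_ne_top

end Pool.Agent.H.MP_01c081_pr
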