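import Pool.Agent.H.MP_01c081_pr.A
import Pool.Agent.Lib.helper3.Padic

set_option linter.unusedSectionVars false
set_option linter.unusedVariables false
set_option linter.dupNamespace false

namespace Pool.Agent.H.MP_01c081_pr

open Finset MeasureTheory ProbabilityTheory Measure Filter Topology Pool.Agent.Lib.helper3.Padic
open scoped ENNReal

/-- The shift of a configuration. -/
def th (x : ℤ × ℤ) (ω : ℤ × ℤ → Bool) : ℤ × ℤ → Bool := fun y => ω (x + y)

/-- The four coordinate directions. -/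
def dir : Fin 4 → ℤ × ℤ := ![(1, 0), (-1, 0), (0, 1), (0, -1)]

/-- Distance from the origin to the nearest point in direction `e`. -/
noncomputable def gap (e : ℤ × ℤ) (ω : ℤ × ℤ → Bool) : ℕ := sInf {k | 0 < k ∧ ω (k • e) = true}

/-- The nearest point from `v` in direction number `d`. -/
noncomputable def nbr (ω : ℤ × ℤ → Bool) (v : ℤ × ℤ) (d : Fin 4) : ℤ × ℤ :=
  v + gap (dir d) (th v ω) • dir d

/-- Every half line contains a point. -/
def Full (ω : ℤ × ℤ → Bool) : Prop := ∀ v d, ∃ k : ℕ, 0 < k ∧ ω (v + k • dir d) = true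

/-- Two-dimensional discrete point process. -/
def DPP (Q : Measure (ℤ × ℤ → Bool)) : Prop :=
  IsProbabilityMeasure Q ∧ Ergodic (th (1, 0)) Q ∧ Ergodic (th (0, 1)) Q ∧
    Q {ω | ∀ x, ω x = false} < 1

/-- Conditioning on a point at the origin. -/
noncomputable def Palm (Q : Measure (ℤ × ℤ → Bool)) : Measure (ℤ × ℤ → Bool) :=
  Q[|{ω | ω 0 = true}]

noncomputable def nb' (ω : ℤ × ℤ → Bool) (v : ℤ × ℤ) (d : Fin 4) : ℤ × ℤ :=
  if ω v then nbr ω v d else v

def iv : Fin 4 → Fin 4 := ![1, 0, 3, 2]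

lemma iv_iv : ∀ d, iv (iv d) = d := by decide

lemma dir_iv : ∀ d, dir (iv d) = -dir d := by decide

variable {ω : ℤ × ℤ → Bool}

lemma gap_le {v e : ℤ × ℤ} {k : ℕ} (h0 : 0 < k) (h : ω (v + k • e) = true) : gap e (th v ω) ≤ k :=
  Nat.sInf_le ⟨h0, h⟩

lemma gap_mem (hF : Full ω) (v : ℤ × ℤ) (d : Fin 4) :
    0 < gap (dir d) (th v ω) ∧ ω (nbr ω v d) = true := Nat.sInf_mem (hF v d)

lemma nb_iv (hF : Full ω) (v : ℤ × ℤ) (d : Fin 4) : nb' ω (nb' ω v d) (iv d) = v := by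
  by_cases h : ω v = true
  · obtain ⟨h1, h2⟩ := gap_mem hF v d
    obtain ⟨h3, h4⟩ := gap_mem hF (nbr ω v d) (iv d)
    have h5 : gap (dir (iv d)) (th (nbr ω v d) ω) ≤ gap (dir d) (th v ω) :=
      gap_le h1 (by simpa [nbr, dir_iv] using h)
    have h6 : gap (dir (iv d)) (th (nbr ω v d) ω) = gap (dir d) (th v ω) := by
      by_contra h7
      obtain ⟨k, hk⟩ := Nat.exists_eq_add_of_le h5
      rw [nbr] at h4
      generalize gap (dir (iv d)) (th (nbr ω v d) ω) = a at *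
      rw [nbr, hk, dir_iv, add_smul, show v + (a • dir d + k • dir d) + a • -dir d = v + k • dir d by
        rw [smul_neg]; abel] at h4
      have := gap_le (by omega) h4
      omega
    simp only [nb', h, h2, if_true]
    rw [nbr, h6, dir_iv, nbr]; simp
  · simp [nb', h]

lemma walk_eq (hF : Full ω) (h0 : ω 0 = true) (ξ : ℕ → Fin 4) (n : ℕ) :
    walk (nb' ω) 0 ξ n = walk (nbr ω) 0 ξ n ∧ ω (walk (nbr ω) 0 ξ n) = true := by
  induction n with
  | zero => exact ⟨rfl, h0⟩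
  | succ n ih => exact ⟨by rw [walk, ih.1, nb', if_pos ih.2]; rfl, (gap_mem hF _ _).2⟩

lemma gap_m (e : ℤ × ℤ) : Measurable (gap e) := measurable_to_countable' fun k => by
  have : gap e ⁻¹' {k} = {ω | (∀ i : ℕ, i < k → 0 < i → ¬ ω (i • e) = true) ∧
      ((0 < k ∧ ω (k • e) = true) ∨ (k = 0 ∧ ∀ i : ℕ, 0 < i → ¬ ω (i • e) = true))} := by
    ext ω
    simp only [Set.mem_preimage, Set.mem_singleton_iff, Set.mem_ofPred_eq, gap]
    constructor
    · rintro rfl
      refine ⟨fun i h1 h2 h3 => Nat.notMem_of_lt_sInf h1 ⟨h2, h3⟩, ?_⟩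
      rcases Set.eq_empty_or_nonempty {k | 0 < k ∧ ω (k • e) = true} with h | h
      · exact .inr ⟨by rw [h, Nat.sInf_empty], fun i h1 h2 => (h.le ⟨h1, h2⟩ : i ∈ (∅ : Set ℕ))⟩
      · exact .inl (Nat.sInf_mem h)
    · rintro ⟨h1, h2 | ⟨rfl, h2⟩⟩
      · exact (Nat.sInf_le h2).antisymm (le_csInf ⟨k, h2⟩ fun i hi => not_lt.1 fun h => h1 i h hi.1 hi.2)
      · exact Nat.sInf_eq_zero.2 (.inr (Set.eq_empty_of_forall_notMem fun i hi => h2 i hi.1 hi.2))
  rw [this, measurableSet_setOfPred]; fun_prop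

variable (n : ℕ → ℕ)

def occ (z : ℤ_[2]) : Prop := ∀ j, ¬ (0 < res (n j + j + 2) z ∧ res (n j + j + 2) z < 2 ^ n j)

open Classical in
noncomputable def Ph (z : ℤ_[2]) (v : ℤ × ℤ) : Bool := decide (occ n (z + (v.1 + v.2 : ℤ)))

lemma occ_m : Measurable (occ n) := by
  refine .forall fun j => .not (measurableSet_setOfPred.1 ?_)
  exact res_meas (p := 2) (n j + j + 2) (MeasurableSet.of_discrete (s := {a | 0 < a ∧ a < 2 ^ n j}))

lemma Ph_m : Measurable (Ph n) := measurable_pi_lambda _ fun v => measurable_to_bool (by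
  have : (fun z => Ph n z v) ⁻¹' {true} = {z | occ n (z + (v.1 + v.2 : ℤ))} := by ext; simp [Ph]
  rw [this, measurableSet_setOfPred]
  exact (occ_m n).comp (measurable_add_const _))

noncomputable def QQ : Measure (ℤ × ℤ → Bool) := (H 2).map (Ph n)

instance : IsProbabilityMeasure (QQ n) := isProbabilityMeasure_map (Ph_m n).aemeasurable

def Str (ω : ℤ × ℤ → Bool) : Prop := (∀ v : ℤ × ℤ, ω v = true ↔ ω (v.1 + v.2, 0) = true) ∧
  ∃ j0, ∀ j, j0 ≤ j → ∃ r : ℤ, (∀ c u : ℤ, |c| ≤ 3 * 2 ^ n (j + 1) → u = 0 ∨ u = -1 ∨ u = 2 ^ n j →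
    (2 : ℤ) ^ (n j + j + 2) ∣ r + c - u → ω (c, 0) = true) ∧
    ∀ c t : ℤ, (2 : ℤ) ^ (n j + j + 2) ∣ r + c → 0 < t → t < 2 ^ n j → ¬ ω (c + t, 0) = true

variable {n} (hn : ∀ j, n j + j + 2 ≤ n (j + 1))
include hn

lemma n_mono : Monotone n := monotone_nat_of_le_succ fun j => by have := hn j; omega

lemma nest {i j : ℕ} (h : i < j) : n i + i + 2 ≤ n j := (hn i).trans (n_mono hn h)

lemma low (j : ℕ) : ((2 : ℝ≥0∞) ^ (n j + j + 2))⁻¹ / 2 ≤
    H 2 {z | occ n z ∧ res (n j + j + 2) z = 0} := by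
  obtain ⟨u, hu⟩ : ∃ u, u = ((2 : ℝ≥0∞) ^ (n j + j + 2))⁻¹ := ⟨_, rfl⟩
  have b : ∀ i, H 2 {z | res (n j + j + 2) z = 0 ∧ 0 < res (n i + i + 2) z ∧
      res (n i + i + 2) z < 2 ^ n i} ≤ u / 2 * 2⁻¹ ^ (i + 1) := fun i => by
    rcases le_or_gt i j with h | h
    · refine ((congrArg _ (Set.eq_empty_of_forall_notMem ?_)).trans measure_empty).trans_le zero_le
      rintro z ⟨h1, h2, -⟩
      rw [res_mono (n := n j + j + 2) (by have := n_mono hn h; omega), h1] at h2
      simp at h2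
    obtain ⟨k, hk⟩ := Nat.exists_eq_add_of_le (nest hn h)
    refine (measure_mono ?_).trans ((H_res_le (n i + i + 2) ((range (2 ^ k)).image fun a : ℕ =>
      (2 : ℤ) ^ (n j + j + 2) * a)).trans ?_)
    · rintro z ⟨h1, h2, h3⟩
      rw [res_mono (n := n i + i + 2) (by omega)] at h1
      obtain ⟨a, ha⟩ := Int.dvd_of_emod_eq_zero h1
      rw [ha] at h2 h3
      rw [hk, pow_add (2 : ℤ) _ k] at h3
      have a0 := pos_of_mul_pos_right h2 (by positivity)
      lift a to ℕ using a0.le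
      exact mem_image.2 ⟨a, mem_range.2 (by exact_mod_cast lt_of_mul_lt_mul_left h3 (by positivity)),
        ha.symm⟩
    · refine (mul_le_mul_left (Nat.cast_le.2 (card_image_le.trans (card_range _).le)) _).trans_eq ?_
      rw [hu, hk, show n j + j + 2 + k + i + 2 = k + (n j + j + 2 + 1 + (i + 1)) by omega, pow_add _ k,
        pow_add _ _ (i + 1), pow_succ _ (n j + j + 2), ENNReal.mul_inv (by simp) (by simp),
        ENNReal.mul_inv (by simp) (by simp), ENNReal.mul_inv (by simp) (by simp), ← mul_assoc]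
      push_cast
      rw [ENNReal.mul_inv_cancel (by simp) (by simp), one_mul, ← ENNReal.inv_pow, div_eq_mul_inv]
  have s : u ≤ H 2 {z | occ n z ∧ res (n j + j + 2) z = 0} + u / 2 := by
    have := H_res (p := 2) (n j + j + 2) (a := 0) le_rfl (by positivity)
    push_cast at this
    refine (hu.trans this.symm).le.trans ((measure_mono ?_).trans ((measure_union_le _ _).trans
      (add_le_add_right ((measure_iUnion_le _).trans ((ENNReal.tsum_le_tsum b).trans_eq ?_)) _)))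
    · intro z hz
      by_cases h : occ n z
      · exact .inl ⟨h, hz⟩
      · obtain ⟨i, hi⟩ := not_forall.1 h
        exact .inr (Set.mem_iUnion.2 ⟨i, hz, not_not.1 hi⟩)
    · rw [ENNReal.tsum_mul_left, ENNReal.tsum_geometric_add_one, ENNReal.one_sub_inv_two, inv_inv,
        ENNReal.inv_mul_cancel (by simp) (by simp), mul_one]
  rw [← hu]
  nth_rewrite 1 [← ENNReal.add_halves u] at s
  exact ENNReal.le_of_add_le_add_right (by rw [hu]; exact ENNReal.div_ne_top (by simp) (by simp)) s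

lemma Q0 : QQ n {ω | ω 0 = true} ≠ 0 := by
  rw [QQ, map_apply (Ph_m n) (measurableSet_setOfPred.2 (by fun_prop))]
  refine (lt_of_lt_of_le (ENNReal.div_pos (by simp) (by simp)) ((low hn 0).trans
    (measure_mono fun z hz => ?_))).ne'
  simpa [Ph] using hz.1

lemma dpp : DPP (QQ n) := by
  have mp : MeasurePreserving (Ph n) (H 2) (QQ n) := ⟨Ph_m n, rfl⟩
  refine ⟨inferInstance, mp.ergodic_of_ergodic_semiconj ergodic (by unfold th; fun_prop) fun z => ?_,
    mp.ergodic_of_ergodic_semiconj ergodic (by unfold th; fun_prop) fun z => ?_, ?_⟩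
  · ext v; simp only [Ph, th, Prod.fst_add, Prod.snd_add]; congr 2; push_cast; ring
  · ext v; simp only [Ph, th, Prod.fst_add, Prod.snd_add]; congr 2; push_cast; ring
  · refine (measure_mono (t := {ω | ω 0 = true}ᶜ) fun ω h => by simp [h 0]).trans_lt ?_
    rw [prob_compl_eq_one_sub (measurableSet_setOfPred.2 (by fun_prop))]
    exact ENNReal.sub_lt_self (by simp) (by simp) (Q0 hn)

lemma str : ∀ᵐ ω ∂QQ n, Str n ω := by
  refine (ae_map_iff (Ph_m n).aemeasurable (measurableSet_setOfPred.2 (by unfold Str; fun_prop))).2 ?_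
  have b : ∀ i, H 2 {z | res (n i + i + 2) (z + ((3 * 2 ^ n i : ℤ) : ℤ_[2])) ∈ Ico (0 : ℤ) (7 * 2 ^ n i)} ≤
      7 * 2⁻¹ ^ i := fun i => by
    refine (measure_preimage_add_right (H 2) ((3 * 2 ^ n i : ℤ) : ℤ_[2])
      {z | res (n i + i + 2) z ∈ Ico (0 : ℤ) (7 * 2 ^ n i)}).le.trans ((H_res_le _ _).trans ?_)
    rw [Int.card_Ico, sub_zero, show (7 * 2 ^ n i : ℤ) = (7 * 2 ^ n i : ℕ) by simp, Int.toNat_natCast,
      add_assoc, pow_add, ENNReal.mul_inv (by simp) (by simp)]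
    push_cast
    rw [mul_assoc, ← mul_assoc (_ ^ n i), ENNReal.mul_inv_cancel (by simp) (by simp), one_mul,
      ← ENNReal.inv_pow]
    gcongr
    · norm_num
    · omega
  filter_upwards [ae_eventually_notMem (ne_top_of_le_ne_top (by
    rw [ENNReal.tsum_mul_left, ENNReal.tsum_geometric]; simp [ENNReal.mul_eq_top])
    (ENNReal.tsum_le_tsum b))] with z hz
  obtain ⟨j0, hj⟩ := eventually_atTop.1 hz
  refine ⟨fun v => by simp [Ph], j0, fun j h => ⟨res (n j + j + 2) z, fun c u hc hu hd => ?_,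
    fun c t hd t0 t1 ho => ?_⟩⟩
  · simp only [Ph, add_zero, decide_eq_true_eq]
    rintro i ⟨h1, h2⟩
    have p1 : (0 : ℤ) < 2 ^ n i := by positivity
    have p2 : (2 : ℤ) ^ (n i + i + 2) = 2 ^ n i * 2 ^ i * 4 := by ring
    have p3 : (1 : ℤ) ≤ 2 ^ i := one_le_pow₀ (by norm_num)
    rcases le_or_gt i j with hi | hi
    · have m : n i + i + 2 ≤ n j + j + 2 := by have := n_mono hn hi; omega
      have e : res (n i + i + 2) (z + (c : ℤ_[2])) = u % 2 ^ (n i + i + 2) := by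
        rw [res_mono m, res_add]; push_cast
        rw [Int.emod_emod_of_dvd _ (pow_dvd_pow _ m)]
        exact (Int.emod_emod_of_dvd _ (dvd_refl _)).symm.trans ((Int.emod_emod_of_dvd _ (dvd_refl _)).trans
          (Int.emod_eq_emod_iff_emod_sub_eq_zero.2 (Int.emod_eq_zero_of_dvd ((pow_dvd_pow _ m).trans hd))))
      rw [e] at h1 h2
      rcases hu with rfl | rfl | rfl
      · simp at h1
      · rw [← Int.add_emod_right, Int.emod_eq_of_lt (by nlinarith) (by linarith)] at h2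
        nlinarith
      · rcases hi.eq_or_lt with rfl | hi
        · rw [Int.emod_eq_of_lt p1.le (by nlinarith)] at h2; exact h2.false
        · rw [Int.emod_eq_zero_of_dvd (pow_dvd_pow _ (nest hn hi))] at h1; exact h1.false
    · have k := hj i (by omega)
      have k1 := res_lt (n i + i + 2) (z + ((3 * 2 ^ n i : ℤ) : ℤ_[2]))
      simp only [mem_Ico, res_nonneg, true_and, not_lt] at k
      have c1 := abs_le.1 (hc.trans (mul_le_mul_of_nonneg_left
        (pow_le_pow_right₀ (by norm_num) (n_mono hn hi)) (by norm_num)))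
      rw [show z + (c : ℤ_[2]) = z + ((3 * 2 ^ n i : ℤ) : ℤ_[2]) + ((c - 3 * 2 ^ n i : ℤ) : ℤ_[2]) by push_cast; ring,
        res_add, Int.emod_eq_of_lt (by linarith) (by linarith)] at h2
      linarith
  · simp only [Ph, add_zero, decide_eq_true_eq] at ho
    refine ho j ?_
    have p1 : (2 : ℤ) ^ n j ≤ 2 ^ (n j + j + 2) := pow_le_pow_right₀ (by norm_num) (by omega)
    rw [res_add, ← add_assoc, Int.add_emod]; push_cast
    rw [Int.emod_eq_zero_of_dvd hd, zero_add, Int.emod_emod, Int.emod_eq_of_lt t0.le (by linarith)]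
    exact ⟨t0, t1⟩

lemma palm : ∀ᵐ ω ∂Palm (QQ n), Str n ω ∧ ω 0 = true :=
  Eventually.and (cond_absolutelyContinuous.ae_le (str hn)) (ae_cond_mem (measurableSet_setOfPred.2 (by fun_prop)))

lemma win (h : Str n ω) : ∃ j0, ∀ j, j0 ≤ j → ∀ v : ℤ × ℤ, |v.1 + v.2| ≤ 2 * 2 ^ n (j + 1) → ∀ d,
    ∃ t : ℕ, 0 < t ∧ t ≤ 2 ^ (n j + j + 2) ∧ ω (v + t • dir d) = true := by
  obtain ⟨h1, j0, h2⟩ := h
  refine ⟨j0, fun j hj v hv d => ?_⟩
  obtain ⟨r, h3, -⟩ := h2 j hj
  have p1 : (2 : ℤ) ^ (n j + j + 2) ≤ 2 ^ n (j + 1) := pow_le_pow_right₀ (by norm_num) (hn j)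
  obtain ⟨M, hM⟩ : ∃ M : ℤ, M = 2 ^ (n j + j + 2) := ⟨_, rfl⟩
  have M0 : 0 < M := by rw [hM]; positivity
  have k : ∀ s : ℤ, s = 1 ∨ s = -1 → ∃ t : ℕ, 0 < t ∧ t ≤ 2 ^ (n j + j + 2) ∧
      ω (v.1 + v.2 + t * s, 0) = true := fun s hs => by
    have a1 := Int.emod_nonneg (s * (r + (v.1 + v.2))) M0.ne'
    have a2 := Int.emod_lt_of_pos (s * (r + (v.1 + v.2))) M0
    have a3 := Int.mul_ediv_add_emod (s * (r + (v.1 + v.2))) M
    obtain ⟨t, ht⟩ := Int.eq_ofNat_of_zero_le (a := M - s * (r + (v.1 + v.2)) % M) (by linarith)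
    rw [← hM] at h3 p1
    have := abs_le.1 hv
    refine ⟨t, by omega, by zify; omega, h3 _ 0 (abs_le.2 ?_) (.inl rfl)
      ⟨s * (1 + s * (r + (v.1 + v.2)) / M), ?_⟩⟩
    · rcases hs with rfl | rfl <;> constructor <;> linarith
    · rcases hs with rfl | rfl <;> linarith
  fin_cases d
  · simpa [dir, h1 (_ + _), add_right_comm] using k 1 (.inl rfl)
  · simpa [dir, h1 (_ + _), add_right_comm] using k (-1) (.inr rfl)
  · simpa [dir, h1 (_ + _), add_assoc] using k 1 (.inl rfl)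
  · simpa [dir, h1 (_ + _), add_assoc] using k (-1) (.inr rfl)

lemma n_ge (j : ℕ) : j ≤ 2 ^ n (j + 1) := by
  have := hn j
  exact (by omega : j ≤ n (j + 1)).trans Nat.lt_two_pow_self.le

lemma full (h : Str n ω) : Full ω := fun v d => by
  obtain ⟨j0, h⟩ := win hn h
  have := n_ge hn (j0 + (v.1 + v.2).natAbs)
  obtain ⟨t, h1, -, h2⟩ := h (j0 + (v.1 + v.2).natAbs) (by omega) v (by
    zify at this; linarith [abs_nonneg (v.1 + v.2), Int.natCast_nonneg j0]) d
  exact ⟨t, h1, h2⟩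

end Pool.Agent.H.MP_01c081_pr
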