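import Pool.Agent.H.MP_01c081_pr.B

set_option linter.unusedSectionVars false
set_option linter.unusedVariables false
set_option linter.dupNamespace false

namespace Pool.Agent.H.MP_01c081_pr

open Finset MeasureTheory ProbabilityTheory Measure Filter Topology Pool.Agent.Lib.helper3.Padic
open scoped ENNReal

noncomputable def ps (r : ℝ) (v : ℤ × ℤ) : ℝ := max 0 (min 1 (2 - ‖v‖ / r))

lemma ps_lip {r : ℝ} (hr : 0 < r) (v w : ℤ × ℤ) : |ps r v - ps r w| ≤ ‖w - v‖ / r := by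
  refine (abs_max_sub_max_le_max _ _ _ _).trans (max_le (by simp; positivity)
    ((abs_min_sub_min_le_max _ _ _ _).trans (max_le (by simp; positivity) ?_)))
  rw [show 2 - ‖v‖ / r - (2 - ‖w‖ / r) = (‖w‖ - ‖v‖) / r by ring, abs_div, abs_of_pos hr]
  exact div_le_div_of_nonneg_right (abs_norm_sub_norm_le _ _) hr.le

lemma ps_one {r : ℝ} (hr : 0 < r) {v : ℤ × ℤ} (h : ‖v‖ ≤ r) : ps r v = 1 := by
  have := (div_le_one hr).2 h
  rw [ps, min_eq_left (by linarith), max_eq_right zero_le_one]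

lemma ps_ne {r : ℝ} (hr : 0 < r) {v : ℤ × ℤ} (h : ps r v ≠ 0) : ‖v‖ ≤ 2 * r := by
  by_contra k
  have := (le_div_iff₀ hr).2 (not_le.1 k).le
  exact h (max_eq_left (min_le_of_right_le (by linarith)))

lemma box {r : ℕ} {v : ℤ × ℤ} (h : ‖v‖ ≤ r) : v ∈ Icc (-r : ℤ) r ×ˢ Icc (-r : ℤ) r := by
  rw [Prod.norm_def, max_le_iff, Int.norm_eq_abs, Int.norm_eq_abs] at h
  simp only [mem_product, mem_Icc, ← abs_le]
  exact ⟨by exact_mod_cast h.1, by exact_mod_cast h.2⟩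

lemma tent {nb : ℤ × ℤ → Fin 4 → ℤ × ℤ} (hi : ∀ v d, nb (nb v d) (iv d) = v) {K : ℕ} (K0 : 0 < K)
    {R : ℝ} (hK : ∀ v d, ‖v‖ ≤ R → ‖nb v d - v‖ ≤ K) (L : ℕ) : 3 ^ L * K ≤ R → ∃ F : ℤ × ℤ → ℝ,
      F 0 = L ∧ (∀ v, F v ≠ 0 → ‖v‖ + K ≤ 3 ^ L * K) ∧
      ∑' p : (ℤ × ℤ) × Fin 4, (F p.1 - F (nb p.1 p.2)) ^ 2 ≤ L * (196 * K ^ 2) := by
  have K1 : (1 : ℝ) ≤ K := by exact_mod_cast K0
  have hK' : ∀ v d, ‖nb v d‖ ≤ R → ‖nb v d - v‖ ≤ K := fun v d h => by
    have := hK _ (iv d) h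
    rwa [hi, norm_sub_rev] at this
  have fs : ∀ (F : ℤ × ℤ → ℝ) (r : ℕ), (∀ v, F v ≠ 0 → ‖v‖ ≤ r) → F.support.Finite := fun F r h =>
    (Finset.finite_toSet _).subset fun v hv => box (h v hv)
  induction L with
  | zero => exact fun _ => ⟨0, by simp, by simp, by simp⟩
  | succ L ih =>
    intro hR
    obtain ⟨r, hr⟩ : ∃ r : ℕ, (3 : ℝ) ^ L * K = r := ⟨3 ^ L * K, by simp⟩
    have rK : (K : ℝ) ≤ r := hr ▸ le_mul_of_one_le_left (by linarith) (one_le_pow₀ (by norm_num))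
    have r0 : (0 : ℝ) < r := by linarith
    rw [pow_succ' (3 : ℝ), mul_assoc, hr] at hR ⊢
    rw [hr] at ih
    obtain ⟨F, F0, F1, F2⟩ := ih (by linarith)
    refine ⟨fun v => F v + ps r v, by simp [F0, ps_one r0, r0.le], fun v h => ?_, ?_⟩
    · by_cases k : F v = 0
      · linarith [ps_ne r0 (v := v) (by simpa [k] using h)]
      · linarith [F1 v k]
    have s1 := en_s iv_iv hi (fs F r fun v h => by linarith [F1 v h])
    have s2 := en_s iv_iv hi (fs (ps r) (2 * r) fun v h => by simpa using ps_ne r0 h)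
    have tr : ∀ v w : ℤ × ℤ, ‖w‖ ≤ ‖v‖ + ‖w - v‖ ∧ ‖v‖ ≤ ‖w‖ + ‖w - v‖ := fun v w =>
      ⟨norm_le_norm_add_norm_sub' w v, norm_le_norm_add_norm_sub w v⟩
    rw [tsum_congr (g := fun p : (ℤ × ℤ) × Fin 4 => (F p.1 - F (nb p.1 p.2)) ^ 2 +
      (ps r p.1 - ps r (nb p.1 p.2)) ^ 2) fun p => ?_, s1.tsum_add s2]
    · have : ∑' p : (ℤ × ℤ) × Fin 4, (ps r p.1 - ps r (nb p.1 p.2)) ^ 2 ≤ 196 * K ^ 2 := by
        have ln : ∀ p : (ℤ × ℤ) × Fin 4, ps r p.1 - ps r (nb p.1 p.2) ≠ 0 →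
            ‖nb p.1 p.2 - p.1‖ ≤ K ∧ ‖p.1‖ ≤ (3 * r : ℕ) := fun p h => by
          push_cast
          by_cases k : ps r p.1 = 0
          · have a := ps_ne r0 (v := nb p.1 p.2) (by simpa [k] using h)
            have b := hK' _ _ (a.trans (by linarith))
            exact ⟨b, by linarith [(tr p.1 (nb p.1 p.2)).2]⟩
          · have a := ps_ne r0 k
            exact ⟨hK _ _ (a.trans (by linarith)), by linarith⟩
        rw [tsum_eq_sum (s := (Icc (-(3 * r : ℕ) : ℤ) (3 * r : ℕ) ×ˢ Icc (-(3 * r : ℕ) : ℤ) (3 * r : ℕ)) ×ˢ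
          univ) fun p hp => by
            by_contra h
            exact hp (mem_product.2 ⟨box (ln p (by simpa using h)).2, mem_univ _⟩)]
        refine (sum_le_card_nsmul _ _ (((K : ℝ) / r) ^ 2) fun p _ => ?_).trans ?_
        · by_cases h : ps r p.1 - ps r (nb p.1 p.2) = 0
          · rw [h]; simp; positivity
          exact sq_le_sq' (abs_le.1 ((ps_lip r0 _ _).trans (div_le_div_of_nonneg_right (ln p h).1 r0.le))).1
            (abs_le.1 ((ps_lip r0 _ _).trans (div_le_div_of_nonneg_right (ln p h).1 r0.le))).2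
        · rw [card_product, card_product, Int.card_Icc, show ((3 * r : ℕ) : ℤ) + 1 - -(3 * r : ℕ) =
            (6 * r + 1 : ℕ) by push_cast; ring, Int.toNat_natCast, card_univ, Fintype.card_fin, nsmul_eq_mul,
            div_pow, ← mul_div_assoc, div_le_iff₀ (by positivity)]
          push_cast
          have : ((6 * r + 1) * (6 * r + 1) * 4 : ℝ) ≤ 196 * r ^ 2 := by nlinarith
          nlinarith [mul_le_mul_of_nonneg_right this (sq_nonneg (K : ℝ))]
      push_cast; linarith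
    · by_cases h : F p.1 - F (nb p.1 p.2) = 0
      · rw [h, add_sub_add_comm, h]; simp
      have : ‖p.1‖ ≤ r ∧ ‖nb p.1 p.2‖ ≤ r := by
        have t := tr p.1 (nb p.1 p.2)
        by_cases k : F p.1 = 0
        · have a := F1 (nb p.1 p.2) (by simpa [k] using h)
          have b := hK' p.1 p.2 (by linarith)
          exact ⟨by linarith, by linarith⟩
        · have a := F1 _ k
          have b := hK p.1 p.2 (by linarith)
          exact ⟨by linarith, by linarith⟩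
      simp only [ps_one r0 this.1, ps_one r0 this.2]; ring

def nR : ℕ → ℕ
  | 0 => 2
  | j + 1 => 3 ^ ((j + 1) * (2 ^ (nR j + j + 2)) ^ 2) * 2 ^ (nR j + j + 2) + nR j + 2 * j + 4

lemma nR_n (j : ℕ) : nR j + j + 2 ≤ nR (j + 1) := by rw [nR]; omega

lemma nR_g (j : ℕ) : 2 * j + 2 ≤ nR j := by cases j <;> simp only [nR] <;> omega

variable {ω : ℤ × ℤ → Bool}

theorem recur' (h : Str nR ω) (h0 : ω 0 = true) : ∀ᵐ ξ ∂Xi, ∃ n, walk (nbr ω) 0 ξ (n + 1) = 0 := by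
  have hF := full nR_n h
  simp only [← (walk_eq hF h0 _ _).1]
  refine recur iv_iv (nb_iv hF) 0 fun ε ε0 => ?_
  obtain ⟨j0, hj⟩ := win nR_n h
  obtain ⟨j, j1, j2⟩ : ∃ j : ℕ, j0 ≤ j ∧ 196 / ε ≤ j + 1 := ⟨j0 + ⌈196 / ε⌉₊, by omega, by
    push_cast; linarith [Nat.le_ceil (196 / ε), (Nat.cast_nonneg j0 : (0 : ℝ) ≤ j0)]⟩
  have hw := hj j j1
  have b : 3 ^ ((j + 1) * (2 ^ (nR j + j + 2)) ^ 2) * 2 ^ (nR j + j + 2) ≤ 2 ^ nR (j + 1) :=
    le_trans (by rw [nR]; omega) Nat.lt_two_pow_self.le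
  have K0 : 0 < 2 ^ (nR j + j + 2) := by positivity
  generalize 2 ^ (nR j + j + 2) = K at *
  obtain ⟨F, F0, F1, F2⟩ := tent (nb_iv hF) K0 (R := 2 ^ nR (j + 1)) (fun v d hv => by
    have bx := box (r := 2 ^ nR (j + 1)) (v := v) (by simpa using hv)
    simp only [mem_product, mem_Icc, ← abs_le] at bx
    obtain ⟨t, t0, t1, t2⟩ := hw v ((abs_add_le _ _).trans (by push_cast at bx; linarith)) d
    rw [nb']; split_ifs
    · rw [nbr, add_sub_cancel_left]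
      refine norm_nsmul_le.trans ?_
      rw [show ‖dir d‖ = 1 by fin_cases d <;> simp [dir, Prod.norm_def], mul_one]
      exact_mod_cast (gap_le t0 t2).trans t1
    · simp) ((j + 1) * K ^ 2) (by exact_mod_cast b)
  have L0 : (0 : ℝ) < ((j + 1) * K ^ 2 : ℕ) := by positivity
  refine ⟨fun v => F v / ((j + 1) * K ^ 2 : ℕ), (Finset.finite_toSet _).subset fun v hv =>
    box (r := 3 ^ ((j + 1) * K ^ 2) * K) ?_, by simp only [F0, div_self L0.ne'], ?_⟩
  · have := F1 v fun k => hv (by simp [k])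
    push_cast; linarith [(Nat.cast_nonneg K : (0 : ℝ) ≤ K)]
  · simp only [← sub_div, div_pow, tsum_div_const]
    rw [div_le_iff₀ (by positivity)]
    refine F2.trans ?_
    rw [div_le_iff₀ ε0] at j2
    rw [sq (((j + 1) * K ^ 2 : ℕ) : ℝ), mul_left_comm ε]
    refine mul_le_mul_of_nonneg_left ?_ L0.le
    push_cast
    nlinarith [mul_le_mul_of_nonneg_right j2 (sq_nonneg (K : ℝ))]

variable {n : ℕ → ℕ} (hn : ∀ j, n j + j + 2 ≤ n (j + 1))
include hn

lemma palm_eq {S : Set (ℤ × ℤ → Bool)} (hS : MeasurableSet S) : Palm (QQ n) S =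
    (QQ n {ω | ω 0 = true})⁻¹ * H 2 {z | occ n z ∧ Ph n z ∈ S} := by
  have m : MeasurableSet {ω : ℤ × ℤ → Bool | ω 0 = true} := measurableSet_setOfPred.2 (by fun_prop)
  rw [Palm, cond_apply m]
  congr 1
  rw [QQ, map_apply (Ph_m n) (m.inter hS)]
  congr 1; ext z; simp [Ph]

lemma gap_Ph (z : ℤ_[2]) : gap (1, 0) (Ph n z) = sInf {k : ℕ | 0 < k ∧ occ n (z + k)} := by
  simp [gap, Ph]

lemma E_fin : ∫⁻ ω, gap (1, 0) ω ∂Palm (QQ n) ≠ ∞ := by
  rw [← lintegral_map (f := fun k : ℕ => (k : ℝ≥0∞)) .of_discrete (gap_m _), lintegral_countable']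
  have mA : ∀ k, MeasurableSet {z | occ n z ∧ Ph n z ∈ gap (1, 0) ⁻¹' {k}} := fun k =>
    (occ_m n).setOf.inter (((gap_m _).comp (Ph_m n)) (measurableSet_singleton k))
  have U := measure_iUnion (μ := H 2) (f := fun p : Σ k, Fin k => (fun z => z + ((-p.2 : ℤ) : ℤ_[2])) ⁻¹'
    {z | occ n z ∧ Ph n z ∈ gap (1, 0) ⁻¹' {p.1}}) ?_ fun p => (mA _).preimage (measurable_add_const _)
  · simp only [measure_preimage_add_right, ENNReal.tsum_sigma', tsum_fintype, sum_const, card_univ,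
      Fintype.card_fin, nsmul_eq_mul] at U
    simp only [map_apply (gap_m _) (measurableSet_singleton _),
      palm_eq hn (gap_m _ (measurableSet_singleton _)), mul_left_comm _ (QQ n _)⁻¹]
    rw [ENNReal.tsum_mul_left, ← U]
    exact ENNReal.mul_ne_top (ENNReal.inv_ne_top.2 (Q0 hn)) (measure_ne_top _ _)
  have k : ∀ (z : ℤ_[2]) (i i' : ℕ), i < i' → occ n (z + ((-i : ℤ) : ℤ_[2])) →
      ¬ i' < gap (1, 0) (Ph n (z + ((-i' : ℤ) : ℤ_[2]))) := fun z i i' h1 h2 h3 => by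
    obtain ⟨a, rfl⟩ := Nat.exists_eq_add_of_lt h1
    rw [gap_Ph hn] at h3
    refine Nat.notMem_of_lt_sInf (m := a + 1) (lt_of_le_of_lt (by omega) h3) ⟨by omega, ?_⟩
    convert h2 using 1; push_cast; ring
  rintro ⟨a, i⟩ ⟨b, i'⟩ h
  refine Set.disjoint_left.2 fun z h1 h2 => ?_
  rcases lt_trichotomy (i : ℕ) i' with l | l | l
  · exact k z _ _ l h1.1 (i'.2.trans_eq h2.2.symm)
  · obtain rfl : a = b := h1.2.symm.trans (by simp only [l]; exact h2.2)
    exact h (congrArg _ (Fin.ext l))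
  · exact k z _ _ l h2.1 (i.2.trans_eq h1.2.symm)

lemma tail (j : ℕ) : ((2 : ℝ≥0∞) ^ (n j + j + 2))⁻¹ / 2 ≤ Palm (QQ n) {ω | 2 ^ n j ≤ gap (1, 0) ω} := by
  have hf : ∀ᵐ ω ∂Palm (QQ n), 0 < gap (1, 0) ω := (palm hn).mono fun ω h => by
    have := (gap_mem (full hn h.1) 0 0).1
    rwa [show th 0 ω = ω by ext; simp [th]] at this
  refine le_trans ?_ (measure_mono_ae (s := {ω | 2 ^ n j ≤ gap (1, 0) ω ∨ gap (1, 0) ω = 0})
    (hf.mono fun ω h k => k.resolve_right h.ne'))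
  refine le_of_le_of_eq ?_
    (palm_eq hn (gap_m (1, 0) (MeasurableSet.of_discrete (s := {k | 2 ^ n j ≤ k ∨ k = 0})))).symm
  refine le_trans ?_ (le_mul_of_one_le_left' (ENNReal.one_le_inv.2 prob_le_one))
  refine (low hn j).trans (measure_mono fun z hz => ⟨hz.1, ?_⟩)
  by_contra k
  simp only [Set.mem_preimage, Set.mem_ofPred_eq, not_or, not_le, gap_Ph hn] at k
  have m := Nat.sInf_mem (Nat.nonempty_of_pos_sInf (Nat.pos_of_ne_zero k.2))
  generalize sInf {k : ℕ | 0 < k ∧ occ n (z + k)} = t at *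
  have p1 : (2 : ℤ) ^ n j ≤ 2 ^ (n j + j + 2) := pow_le_pow_right₀ (by norm_num) (by omega)
  have k1 : (t : ℤ) < 2 ^ n j := by exact_mod_cast k.1
  refine m.2 j ?_
  rw [← Int.cast_natCast, res_add, hz.2, zero_add, Int.emod_eq_of_lt (by positivity)
    (by push_cast; linarith)]
  exact ⟨by exact_mod_cast m.1, k1⟩

end Pool.Agent.H.MP_01c081_pr
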